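import Pool.Agent.W254.PA.LeoA
import Pool.Agent.W254.PA.LogP
import Pool.Agent.Y787.AS.WM
import Pool.Agent.H297R2.BakerThm
import Pool.Agent.W245.PB.PLog

/-!
# Kernel vectors of matrices of logarithms with coordinates in a finite dimensional space
-/

set_option autoImplicit false

namespace Pool.Agent.T9h51.KV

open Module Finset
open Pool.Agent.W254.Ab (QA mem_QA)
open Pool.Agent.W254.PA (Hyp LtE relSet exists_supp ObsProp LKP HypQ hypP hyp_of_embed)

section setup

variable {E : Type} [Field E] [CharZero E] [IsAlgClosed E]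

/-- a rational space of logarithms -/
structure Setup (Lg : Submodule ℚ E) : Prop where
  emb : ∃ (Θ : E →+* ℂ) (𝓛 : Submodule ℚ ℂ), ObsProp 𝓛 ∧ ∀ z ∈ Lg, Θ z ∈ 𝓛
  baker : ∀ (J : Type) (w : J → E), (∀ j, w j ∈ Lg) → LinearIndependent ℚ w → LinearIndependent (QA E) w

variable {Lg : Submodule ℚ E}

theorem Setup.hyp (hS : Setup Lg) : Hyp (LtE (Lg : Set E)) := by
  obtain ⟨Θ, 𝓛, hO, h⟩ := hS.emb
  exact hyp_of_embed Θ 𝓛 (Lg : Set E) hO h

/-- a rational functional which does not vanish at a given element -/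
theorem exists_functional {V : Type} [AddCommGroup V] [Module ℚ V] {z : V} (hz : z ≠ 0) : ∃ ℓ : V →ₗ[ℚ] ℚ, ℓ z ≠ 0 := by
  by_contra hcon
  push Not at hcon
  exact hz ((Module.forall_dual_apply_eq_zero_iff ℚ z).1 hcon)

theorem functional_sum {ι : Type} [Fintype ι] (ℓ : E →ₗ[ℚ] ℚ) (x : ι → E) (c : ι → ℚ) (h : ∑ i, x i * (c i : E) = 0) :
    ∑ i, ℓ (x i) * c i = 0 := by
  have h1 : ℓ (∑ i, x i * (c i : E)) = 0 := by rw [h, map_zero]
  rw [map_sum] at h1
  rw [← h1]
  refine Finset.sum_congr rfl fun i _ => ?_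
  have h2 : x i * (c i : E) = c i • x i := by rw [Rat.smul_def, mul_comm]
  rw [h2, map_smul, smul_eq_mul, mul_comm]

/-- coordinates with respect to a basis of `Lg` -/
theorem coords {J : Type} (b : Basis J ℚ Lg) {ι : Type} [Fintype ι] (u : ι → E) (hu : ∀ i, u i ∈ Lg) :
    ∃ (T : Finset J) (c : ι → J → ℚ), (∀ i, u i = ∑ s ∈ T, (c i s : E) * (b s : E)) ∧ ∀ i, ∀ s, s ∉ T → c i s = 0 := by
  classical
  refine ⟨Finset.univ.biUnion fun i => (b.repr ⟨u i, hu i⟩).support, fun i => b.repr ⟨u i, hu i⟩, fun i => ?_,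
    fun i s hs => ?_⟩
  · have h1 := b.linearCombination_repr ⟨u i, hu i⟩
    rw [Finsupp.linearCombination_apply, Finsupp.sum_of_support_subset (b.repr ⟨u i, hu i⟩)
      (s := Finset.univ.biUnion fun i => (b.repr ⟨u i, hu i⟩).support)
      (Finset.subset_biUnion_of_mem (fun i => (b.repr ⟨u i, hu i⟩).support) (Finset.mem_univ i))
      (fun s q => q • b s) (fun s _ => zero_smul _ _)] at h1
    have h2 := congrArg (fun z : Lg => (z : E)) h1
    simp only [Submodule.coe_sum, Submodule.coe_smul, Rat.smul_def] at h2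
    exact h2.symm
  · by_contra h0
    exact hs (Finset.mem_biUnion.2 ⟨i, Finset.mem_univ _, Finsupp.mem_support_iff.2 h0⟩)

/-- **The space of exceptional logarithms.** -/
theorem exists_space (hS : Setup Lg) (A : Submodule (QA E) E) [FiniteDimensional (QA E) A] :
    ∃ Z : Submodule ℚ E, Z ≤ Lg ∧ FiniteDimensional ℚ Z ∧ ∀ (ι κ : Type) [Fintype ι] (M : ι → κ → E),
      (∀ i j, M i j ∈ Lg) → ∀ x : ι → E, x ≠ 0 → (∀ i, x i ∈ A) → (∀ j, ∑ i, x i * M i j = 0) →
      ∃ w : ι → ℚ, w ≠ 0 ∧ ∀ j, ∑ i, (w i : E) * M i j ∈ Z := by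
  classical
  obtain ⟨J, ⟨b⟩⟩ : ∃ J : Type, Nonempty (Basis J ℚ Lg) := ⟨_, ⟨Basis.ofVectorSpace ℚ Lg⟩⟩
  obtain ⟨w, hw⟩ : ∃ w : J → E, w = fun j => (b j : E) := ⟨_, rfl⟩
  have hwQ : LinearIndependent ℚ w := by
    rw [hw]
    exact b.linearIndependent.map' Lg.subtype (Submodule.ker_subtype _)
  have hwL : ∀ j, w j ∈ Lg := fun j => by
    rw [hw]
    exact (b j).2
  have hwA := hS.baker J w hwL hwQ
  obtain ⟨S, hSupp⟩ := exists_supp hS.hyp w hwA (fun j => Submodule.subset_span (Or.inr (hwL j))) A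
  refine ⟨Submodule.span ℚ (w '' (S : Set J)), ?_, ?_, ?_⟩
  · rw [Submodule.span_le]
    rintro _ ⟨s, -, rfl⟩
    exact hwL s
  · exact FiniteDimensional.span_of_finite ℚ (S.finite_toSet.image w)
  · intro ι κ _ M hM x hx hxA hker
    obtain ⟨i₀, hi₀⟩ : ∃ i, x i ≠ 0 := by
      by_contra hcon
      push Not at hcon
      exact hx (funext hcon)
    obtain ⟨ℓ, hℓ⟩ := exists_functional hi₀
    refine ⟨fun i => ℓ (x i), fun h => hℓ (congrFun h i₀), fun j => ?_⟩
    obtain ⟨T, c, hc, hc0⟩ := coords b (fun i => M i j) (fun i => hM i j)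
    have hcw : ∀ i, M i j = ∑ s ∈ T, (c i s : E) * w s := by
      intro i
      rw [hw]
      exact hc i
    -- the relation
    obtain ⟨f, hf⟩ : ∃ f : J →₀ E, ∀ s, f s = ∑ i, x i * (c i s : E) := by
      refine ⟨Finsupp.onFinset T (fun s => ∑ i, x i * (c i s : E)) fun s hs => ?_, fun s => rfl⟩
      by_contra h0
      apply hs
      refine Finset.sum_eq_zero fun i _ => ?_
      rw [hc0 i s h0, Rat.cast_zero, mul_zero]
    have hfR : f ∈ relSet w A := by
      refine ⟨fun s => ?_, ?_⟩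
      · rw [hf]
        refine Submodule.sum_mem _ fun i _ => ?_
        have h1 : x i * (c i s : E) = (algebraMap ℚ (QA E) (c i s)) • x i := by
          rw [Algebra.smul_def, mul_comm]
          congr 1
        rw [h1]
        exact A.smul_mem _ (hxA i)
      · rw [Finsupp.sum_of_support_subset _ (s := T) _ _ (fun s _ => zero_mul _)]
        · rw [← hker j]
          have e1 : ∀ i, x i * M i j = ∑ s ∈ T, x i * (c i s : E) * w s := by
            intro i
            rw [hcw i, Finset.mul_sum]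
            exact Finset.sum_congr rfl fun s _ => by ring
          simp only [e1]
          rw [Finset.sum_comm]
          refine Finset.sum_congr rfl fun s _ => ?_
          rw [hf, Finset.sum_mul]
        · intro s hs
          by_contra h0
          apply Finsupp.mem_support_iff.1 hs
          rw [hf]
          refine Finset.sum_eq_zero fun i _ => ?_
          rw [hc0 i s h0, Rat.cast_zero, mul_zero]
    have e2 : ∑ i, ((ℓ (x i) : ℚ) : E) * M i j = ∑ s ∈ T, ((∑ i, ℓ (x i) * c i s : ℚ) : E) * w s := by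
      simp only [hcw, Finset.mul_sum]
      rw [Finset.sum_comm]
      refine Finset.sum_congr rfl fun s _ => ?_
      push_cast
      rw [Finset.sum_mul]
      exact Finset.sum_congr rfl fun i _ => by ring
    rw [e2]
    refine Submodule.sum_mem _ fun s _ => ?_
    by_cases hs : s ∈ S
    · have h1 := (Submodule.span ℚ (w '' (S : Set J))).smul_mem (∑ i, ℓ (x i) * c i s)
        (Submodule.subset_span ⟨s, Finset.mem_coe.2 hs, rfl⟩)
      rwa [Rat.smul_def] at h1
    · have h1 := hSupp f hfR s hs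
      rw [hf] at h1
      rw [functional_sum ℓ x (fun i => c i s) h1, Rat.cast_zero, zero_mul]
      exact Submodule.zero_mem _

/-- a rational zero coefficient from the space -/
theorem exists_pair {ι κ : Type} [Fintype ι] [Fintype κ] {Z : Submodule ℚ E} [FiniteDimensional ℚ Z]
    (hZ : finrank ℚ Z < Fintype.card κ) {M : ι → κ → E} {w : ι → ℚ} (h : ∀ j, ∑ i, (w i : E) * M i j ∈ Z) :
    ∃ v : κ → ℚ, v ≠ 0 ∧ ∑ i, ∑ j, (w i : E) * M i j * (v j : E) = 0 := by
  classical
  let φ : (κ → ℚ) →ₗ[ℚ] Z :=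
    { toFun := fun v => ∑ j, v j • (⟨∑ i, (w i : E) * M i j, h j⟩ : Z)
      map_add' := fun a c => by
        simp only [Pi.add_apply, add_smul, Finset.sum_add_distrib]
      map_smul' := fun q a => by
        simp only [Pi.smul_apply, smul_assoc, Finset.smul_sum, RingHom.id_apply] }
  have hker : LinearMap.ker φ ≠ ⊥ := by
    apply LinearMap.ker_ne_bot_of_finrank_lt
    rw [Module.finrank_fintype_fun_eq_card]
    exact hZ
  obtain ⟨v, hv, hv0⟩ := Submodule.exists_mem_ne_zero_of_ne_bot hker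
  refine ⟨v, hv0, ?_⟩
  have h1 := congrArg (fun z : Z => (z : E)) (LinearMap.mem_ker.1 hv)
  simp only [φ, LinearMap.coe_mk, AddHom.coe_mk, Submodule.coe_sum, Submodule.coe_smul, Submodule.coe_zero,
    Rat.smul_def, Finset.mul_sum] at h1
  rw [Finset.sum_comm, ← h1]
  exact Finset.sum_congr rfl fun j _ => Finset.sum_congr rfl fun i _ => by ring

/-- the hyperplane theorem over a number field -/
theorem hypK (hS : Setup Lg) (K : IntermediateField ℚ E) [FiniteDimensional ℚ K] (d l : ℕ) (x : Fin d → E)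
    (a : Fin d → Fin l → E) (hx : LinearIndependent K x) (ha : ∀ i j, a i j ∈ Submodule.span K (Lg : Set E))
    (hxa : ∀ j, ∑ i, x i * a i j = 0) (hcol : LinearIndependent K (fun j i => a i j)) : l ≤ d * (d - 1) := by
  classical
  obtain ⟨Θ, 𝓛, hO, hΘ⟩ := hS.emb
  obtain ⟨K', hK'⟩ : ∃ K' : IntermediateField ℚ ℂ, K' = K.map (RingHom.toRatAlgHom Θ) := ⟨_, rfl⟩
  have hfd : FiniteDimensional ℚ K' := by
    rw [hK']
    exact LinearEquiv.finiteDimensional (K.equivMap (RingHom.toRatAlgHom Θ)).toLinearEquiv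
  have hmem : ∀ k : K, Θ (k : E) ∈ K' := by
    intro k
    rw [hK', IntermediateField.mem_map]
    exact ⟨k, k.2, rfl⟩
  have hpre : ∀ c : K', ∃ k : K, Θ (k : E) = c := by
    rintro ⟨c, hc⟩
    rw [hK', IntermediateField.mem_map] at hc
    obtain ⟨k, hk, h1⟩ := hc
    exact ⟨⟨k, hk⟩, h1⟩
  choose π hπ using hpre
  refine hypP K' 𝓛 hO d l (fun i => Θ (x i)) (fun i j => Θ (a i j)) ?_ ?_ ?_ ?_
  · intro c hc i
    have h1 := Fintype.linearIndependent_iff.mp hx (fun i => π (c i)) (by
      apply Θ.injective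
      rw [map_zero, ← hc, map_sum]
      apply Finset.sum_congr rfl
      intro i _
      rw [Algebra.smul_def, map_mul]
      congr 1
      exact hπ (c i)) i
    have h3 := hπ (c i)
    rw [h1] at h3
    apply Subtype.ext
    rw [← h3]
    simp
  · intro i j
    refine Submodule.span_induction (p := fun z _ => Θ z ∈ LKP K' 𝓛) ?_ ?_ ?_ ?_ (ha i j)
    · intro z hz
      exact Submodule.subset_span (Or.inr (hΘ z hz))
    · rw [map_zero]
      exact Submodule.zero_mem _
    · intro z z' _ _ h1 h2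
      rw [map_add]
      exact Submodule.add_mem _ h1 h2
    · intro k z _ h1
      have h3 := (LKP K' 𝓛).smul_mem (⟨Θ (k : E), hmem k⟩ : K') h1
      rw [Algebra.smul_def] at h3 ⊢
      rw [map_mul]
      exact h3
  · intro j
    rw [← map_zero Θ, ← hxa j, map_sum]
    apply Finset.sum_congr rfl
    intro i _
    rw [map_mul]
  · intro c hc j
    have h1 := Fintype.linearIndependent_iff.mp hcol (fun j => π (c j)) (by
      funext i
      rw [Finset.sum_apply, Pi.zero_apply]
      apply Θ.injective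
      rw [map_zero, ← hc i, map_sum]
      apply Finset.sum_congr rfl
      intro j _
      rw [Pi.smul_apply, Algebra.smul_def, map_mul]
      congr 1
      exact hπ (c j)) j
    have h3 := hπ (c j)
    rw [h1] at h3
    apply Subtype.ext
    rw [← h3]
    simp

/-- **The explicit bound.** -/
theorem explicit (hS : Setup Lg) (K : IntermediateField ℚ E) [FiniteDimensional ℚ K] (X : Submodule K E)
    [FiniteDimensional K X] {ι κ : Type} [Fintype ι] [Fintype κ]
    (hn : finrank ℚ K * (finrank K X * (finrank K X - 1)) < Fintype.card κ) (M : ι → κ → E) (hM : ∀ i j, M i j ∈ Lg)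
    (x : ι → E) (hx : x ≠ 0) (hxX : ∀ i, x i ∈ X) (hker : ∀ j, ∑ i, x i * M i j = 0) :
    ∃ (w : ι → ℚ) (v : κ → ℚ), w ≠ 0 ∧ v ≠ 0 ∧ ∑ i, ∑ j, (w i : E) * M i j * (v j : E) = 0 := by
  classical
  obtain ⟨d, hd⟩ : ∃ d, d = finrank K X := ⟨_, rfl⟩
  obtain ⟨e⟩ : Nonempty (Basis (Fin d) K X) := ⟨Module.finBasisOfFinrankEq K X hd.symm⟩
  obtain ⟨a, ha⟩ : ∃ a : ι → Fin d → K, ∀ i, x i = ∑ j, (a i j : E) * (e j : E) := by
    refine ⟨fun i => e.repr ⟨x i, hxX i⟩, fun i => ?_⟩
    have h1 := congrArg (fun z : X => (z : E)) (e.sum_repr ⟨x i, hxX i⟩)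
    simp only [Submodule.coe_sum, Submodule.coe_smul] at h1
    rw [← h1]
    exact Finset.sum_congr rfl fun j _ => by
      rw [Algebra.smul_def]
      rfl
  obtain ⟨b, hb⟩ : ∃ b : κ → Fin d → E, ∀ k j, b k j = ∑ i, (a i j : E) * M i k := ⟨_, fun _ _ => rfl⟩
  obtain ⟨W, hW⟩ : ∃ W : Submodule K (Fin d → E), W = Submodule.span K (Set.range b) := ⟨_, rfl⟩
  have hbW : ∀ k, b k ∈ W := fun k => by
    rw [hW]
    exact Submodule.subset_span ⟨k, rfl⟩
  have hfdW : FiniteDimensional K W := by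
    rw [hW]
    exact FiniteDimensional.span_of_finite K (Set.finite_range b)
  have hW1 : ∀ y ∈ W, (∀ j, y j ∈ Submodule.span K (Lg : Set E)) ∧ ∑ j, (e j : E) * y j = 0 := by
    intro y hy
    rw [hW] at hy
    refine Submodule.span_induction (p := fun y _ => (∀ j, y j ∈ Submodule.span K (Lg : Set E)) ∧
      ∑ j, (e j : E) * y j = 0) ?_ ?_ ?_ ?_ hy
    · rintro _ ⟨k, rfl⟩
      refine ⟨fun j => ?_, ?_⟩
      · rw [hb]
        refine Submodule.sum_mem _ fun i _ => ?_
        have h1 := (Submodule.span K (Lg : Set E)).smul_mem (a i j) (Submodule.subset_span (hM i k))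
        rw [Algebra.smul_def] at h1
        exact h1
      · rw [← hker k]
        simp only [hb, ha, Finset.mul_sum, Finset.sum_mul]
        rw [Finset.sum_comm]
        exact Finset.sum_congr rfl fun i _ => Finset.sum_congr rfl fun j _ => by ring
    · exact ⟨fun j => Submodule.zero_mem _, by simp⟩
    · rintro y z _ _ ⟨h1, h2⟩ ⟨h3, h4⟩
      refine ⟨fun j => Submodule.add_mem _ (h1 j) (h3 j), ?_⟩
      simp only [Pi.add_apply, mul_add, Finset.sum_add_distrib, h2, h4, add_zero]
    · rintro c y _ ⟨h1, h2⟩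
      refine ⟨fun j => Submodule.smul_mem _ c (h1 j), ?_⟩
      have h3 : ∀ j, (e j : E) * (c • y) j = (c : E) * ((e j : E) * y j) := by
        intro j
        rw [Pi.smul_apply, Algebra.smul_def]
        have : algebraMap K E c = (c : E) := rfl
        rw [this]
        ring
      simp only [h3, ← Finset.mul_sum, h2, mul_zero]
  -- the dimension of `W`
  have hdimW : finrank K W ≤ d * (d - 1) := by
    obtain ⟨β⟩ : Nonempty (Basis (Fin (finrank K W)) K W) := ⟨Module.finBasis K W⟩
    refine hypK hS K d (finrank K W) (fun j => (e j : E)) (fun i j => (β j : Fin d → E) i) ?_ ?_ ?_ ?_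
    · exact e.linearIndependent.map' X.subtype (Submodule.ker_subtype _)
    · exact fun i j => (hW1 _ (β j).2).1 i
    · exact fun j => (hW1 _ (β j).2).2
    · exact β.linearIndependent.map' W.subtype (Submodule.ker_subtype _)
  have hQ : finrank ℚ W < Fintype.card κ := by
    rw [← Module.finrank_mul_finrank ℚ K W]
    refine lt_of_le_of_lt (Nat.mul_le_mul_left _ hdimW) ?_
    rw [hd]
    exact hn
  have : FiniteDimensional ℚ W := FiniteDimensional.trans ℚ K W
  -- a rational relation between the columns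
  obtain ⟨v, hv0, hv⟩ : ∃ v : κ → ℚ, v ≠ 0 ∧ ∑ k, v k • (⟨b k, hbW k⟩ : W) = 0 := by
    let φ : (κ → ℚ) →ₗ[ℚ] W :=
      { toFun := fun v => ∑ k, v k • (⟨b k, hbW k⟩ : W)
        map_add' := fun a c => by
          simp only [Pi.add_apply, add_smul, Finset.sum_add_distrib]
        map_smul' := fun q a => by
          simp only [Pi.smul_apply, smul_assoc, Finset.smul_sum, RingHom.id_apply] }
    have hk : LinearMap.ker φ ≠ ⊥ := by
      apply LinearMap.ker_ne_bot_of_finrank_lt
      rw [Module.finrank_fintype_fun_eq_card]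
      exact hQ
    obtain ⟨v, hv, hv0⟩ := Submodule.exists_mem_ne_zero_of_ne_bot hk
    exact ⟨v, hv0, LinearMap.mem_ker.1 hv⟩
  obtain ⟨u, hu⟩ : ∃ u : ι → E, ∀ i, u i = ∑ k, (v k : E) * M i k := ⟨_, fun _ => rfl⟩
  have huL : ∀ i, u i ∈ Lg := by
    intro i
    rw [hu]
    refine Submodule.sum_mem _ fun k _ => ?_
    have h1 := Lg.smul_mem (v k) (hM i k)
    rwa [Rat.smul_def] at h1
  have hrel : ∀ j, ∑ i, (a i j : E) * u i = 0 := by
    intro j
    have h1 := congrFun (congrArg (fun z : W => (z : Fin d → E)) hv) j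
    simp only [Submodule.coe_sum, Submodule.coe_smul_of_tower, Submodule.coe_zero, Finset.sum_apply, Pi.smul_apply,
      Pi.zero_apply, Rat.smul_def, hb, Finset.mul_sum] at h1
    rw [← h1]
    simp only [hu, Finset.mul_sum]
    rw [Finset.sum_comm]
    exact Finset.sum_congr rfl fun k _ => Finset.sum_congr rfl fun i _ => by ring
  -- a nonzero coordinate
  obtain ⟨i₀, j₀, hij⟩ : ∃ i j, a i j ≠ 0 := by
    by_contra hcon
    push Not at hcon
    apply hx
    funext i
    rw [ha i]
    exact Finset.sum_eq_zero fun j _ => by rw [hcon i j]; simp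
  obtain ⟨ℓ, hℓ⟩ : ∃ ℓ : E →ₗ[ℚ] ℚ, ℓ (a i₀ j₀ : E) ≠ 0 := exists_functional fun h => hij (Subtype.ext h)
  refine ⟨fun i => ℓ (a i j₀ : E), v, fun h => hℓ (congrFun h i₀), hv0, ?_⟩
  -- Baker's theorem
  obtain ⟨J, ⟨B⟩⟩ : ∃ J : Type, Nonempty (Basis J ℚ Lg) := ⟨_, ⟨Basis.ofVectorSpace ℚ Lg⟩⟩
  have hwQ : LinearIndependent ℚ (fun j => (B j : E)) := B.linearIndependent.map' Lg.subtype (Submodule.ker_subtype _)
  have hwA := hS.baker J _ (fun j => (B j).2) hwQ
  obtain ⟨T, c, hc, hc0⟩ := coords B u huL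
  have halg : ∀ i j, IsAlgebraic ℚ (a i j : E) := fun i j =>
    (Algebra.IsAlgebraic.isAlgebraic (R := ℚ) (a i j)).algebraMap (A := E)
  have hzero : ∀ s ∈ T, ∑ i, (a i j₀ : E) * (c i s : E) = 0 := by
    have hq : ∀ s, IsAlgebraic ℚ (∑ i, (a i j₀ : E) * (c i s : E)) := by
      intro s
      rw [← mem_QA]
      refine Submodule.sum_mem (QA E).toSubalgebra.toSubmodule fun i _ => ?_
      exact mem_QA.2 ((halg i j₀).mul (isAlgebraic_algebraMap (R := ℚ) (A := E) (c i s)))
    have h1 := linearIndependent_iff'.1 hwA T (fun s => ⟨∑ i, (a i j₀ : E) * (c i s : E), mem_QA.2 (hq s)⟩) (by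
      rw [← hrel j₀]
      simp only [hc, Finset.mul_sum]
      rw [Finset.sum_comm]
      refine Finset.sum_congr rfl fun s _ => ?_
      rw [Algebra.smul_def]
      change (∑ i, (a i j₀ : E) * (c i s : E)) * (B s : E) = _
      rw [Finset.sum_mul]
      exact Finset.sum_congr rfl fun i _ => by ring)
    intro s hs
    exact congrArg (fun z : QA E => (z : E)) (h1 s hs)
  have h2 : ∀ s ∈ T, ∑ i, ℓ (a i j₀ : E) * c i s = 0 := fun s hs => functional_sum ℓ _ _ (hzero s hs)
  have h3 : ∑ i, ((ℓ (a i j₀ : E) : ℚ) : E) * u i = 0 := by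
    simp only [hc, Finset.mul_sum]
    rw [Finset.sum_comm]
    refine Finset.sum_eq_zero fun s hs => ?_
    have h4 : ∑ i, ((ℓ (a i j₀ : E) : ℚ) : E) * ((c i s : E) * (B s : E)) =
        ((∑ i, ℓ (a i j₀ : E) * c i s : ℚ) : E) * (B s : E) := by
      push_cast
      rw [Finset.sum_mul]
      exact Finset.sum_congr rfl fun i _ => by ring
    rw [h4, h2 s hs, Rat.cast_zero, zero_mul]
  rw [← h3]
  refine Finset.sum_congr rfl fun i _ => ?_
  rw [hu, Finset.mul_sum]
  exact Finset.sum_congr rfl fun k _ => by ring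

end setup

/-- the complex logarithms -/
theorem setup_complex : Setup Pool.Agent.H301R2.SSE.Lg where
  emb := ⟨RingHom.id ℂ, Pool.Agent.H301R2.SSE.Lg, Pool.Agent.Y787.AS.obs_complex, fun z hz => hz⟩
  baker := by
    classical
    intro J w hw hli
    rw [linearIndependent_iff']
    intro s g hg i hi
    have h1 := Pool.Agent.H297R2.baker (fun i : s => w i) (fun i => hw _) (hli.comp _ Subtype.val_injective)
      (fun i => (g i : ℂ)) (fun i => mem_QA.1 (g i).2) (by
        rw [← hg, ← Finset.sum_coe_sort s (fun i => g i • w i)]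
        rfl) ⟨i, hi⟩
    exact Subtype.ext h1

section padic

variable {p : ℕ} [Fact p.Prime] {L : PadicAlgCl p → PadicAlgCl p}

open Pool.Agent.W245.PB (IsIwasawaLog)

open Pool.Agent.W254.PA (logs)

/-- the space of `p`-adic logarithms of algebraic numbers -/
noncomputable def logSp (hL : IsIwasawaLog p L) : Submodule ℚ (PadicAlgCl p) where
  carrier := logs L
  zero_mem' := ⟨1, one_ne_zero, isAlgebraic_one, hL.one.symm⟩
  add_mem' := by
    rintro _ _ ⟨α, hα, hα', rfl⟩ ⟨β, hβ, hβ', rfl⟩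
    exact ⟨α * β, mul_ne_zero hα hβ, hα'.mul hβ', (hL.mul α β hα hβ).symm⟩
  smul_mem' := by
    rintro q _ ⟨α, hα, hα', rfl⟩
    obtain ⟨γ, hγ⟩ := IsAlgClosed.exists_pow_nat_eq (α ^ q.num) q.den_pos
    have hγ0 : γ ≠ 0 := by
      rintro rfl
      rw [zero_pow q.den_nz] at hγ
      exact zpow_ne_zero _ hα hγ.symm
    refine ⟨γ, hγ0, ?_, ?_⟩
    · have h1 : IsAlgebraic ℚ (γ ^ q.den) := by
        rw [hγ]
        obtain ⟨m, hm | hm⟩ := q.num.eq_nat_or_neg
        · rw [hm, zpow_natCast]; exact hα'.pow _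
        · rw [hm, zpow_neg, zpow_natCast]; exact (hα'.pow _).inv
      exact h1.of_pow q.den_pos
    · have h1 : (q.den : PadicAlgCl p) * L γ = (q.num : PadicAlgCl p) * L α := by
        rw [← hL.pow hγ0, hγ, hL.zpow hα]
      have h2 : (q.den : PadicAlgCl p) ≠ 0 := Nat.cast_ne_zero.2 q.den_nz
      rw [Rat.smul_def]
      apply mul_left_cancel₀ h2
      rw [h1, ← mul_assoc]
      congr 1
      have h3 : ((q.den : ℚ) * q : ℚ) = (q.num : ℚ) := by
        rw [mul_comm]; exact_mod_cast Rat.mul_den_eq_num q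
      exact_mod_cast congrArg (fun r : ℚ => (r : PadicAlgCl p)) h3

open Pool.Agent.W254.PA (exists_theta ic Lθ obsProp_padic mem_Lθ ic_log_mem) in
theorem setup_padic (hL : IsIwasawaLog p L) : Setup (logSp hL) where
  emb := by
    obtain ⟨θ⟩ := exists_theta p
    refine ⟨(θ : ℂ_[p] →+* ℂ).comp (ic p), Lθ p θ, obsProp_padic p Pool.Agent.H301R2.SSE.zeg θ, ?_⟩
    rintro z ⟨α, hα, halg, rfl⟩
    rw [mem_Lθ]
    have : θ.symm (((θ : ℂ_[p] →+* ℂ).comp (ic p)) (L α)) = ic p (L α) := θ.symm_apply_apply _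
    rw [this]
    exact ic_log_mem hL hα halg
  baker := by
    classical
    intro J w hw hli
    rw [linearIndependent_iff']
    intro s g hg i hi
    have h1 := hL.indep_of_indep (fun i : s => w i) (fun i => hw _) (hli.comp _ Subtype.val_injective)
    rw [Fintype.linearIndependent_iff] at h1
    refine h1 (fun i : s => g i) ?_ ⟨i, hi⟩
    rw [← hg, ← Finset.sum_coe_sort s (fun i => g i • w i)]

end padic

end Pool.Agent.T9h51.KV
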